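import Pool.Agent.TH201.Ph.Tab

set_option autoImplicit false

/-!
# The finite check
-/

namespace Pool.Agent.TH201.Ph

/-- choice of three values -/
def tri {α : Type} (a b c : α) : Fin 3 → α := fun i => match i.val with
  | 0 => a
  | 1 => b
  | _ => c

/-- some coefficient of a lower vertex is seen alone -/
def lowC (l : Fin 3 → Fin 7) (s : Fin 3 → Fin 3) (c : Fin 3) : Bool :=
  (s c == 2) && (List.finRange 4).any (fun t => unit1 (cur c (l c) t)) &&
    (List.finRange 3).all (fun c' => (c' == c) || (s c' == 0) || hub c' (l c'))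

/-- the pattern of a row of a block -/
def rowC (l : Fin 3 → Fin 7) (s : Fin 3 → Fin 3) (j : Fin 6) (b : Bool) : Bool :=
  (List.finRange 3).all (fun c => (lb c j b == l c) &&
    (hub c (l c) || (s c == (if fl c j b then 1 else 0))))

/-- the pattern of a row of an end gadget -/
def gadC (l : Fin 3 → Fin 7) (s : Fin 3 → Fin 3) (b : Bool) : Bool :=
  (l 2 == 0) && (s 2 == 0) &&
    (if b then (l 0 == 0) && (l 1 == 1) && (s 1 == 0) else (l 0 == 1) && (l 1 == 0) && (s 0 == 0))

/-- the alternatives -/
def alt (l : Fin 3 → Fin 7) (s : Fin 3 → Fin 3) : Bool :=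
  (List.finRange 4).any (fun t => unit1 (T0 l s t)) ||
  (List.finRange 4).any (fun t => unit1 (T1 l s t)) ||
  (List.finRange 3).any (fun c => lowC l s c) ||
  (List.finRange 6).any (fun j => rowC l s j false || rowC l s j true) ||
  gadC l s false || gadC l s true

/-- some vertex which is not a hub is on the top level -/
def topC (l : Fin 3 → Fin 7) (s : Fin 3 → Fin 3) : Bool :=
  (List.finRange 3).any (fun c => (s c == 0) && !(hub c (l c)))

theorem alt_all : ∀ (l0 l1 l2 : Fin 7) (s0 s1 s2 : Fin 3), okL 0 l0 = true → okL 1 l1 = true →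
    topC (tri l0 l1 l2) (tri s0 s1 s2) = true → alt (tri l0 l1 l2) (tri s0 s1 s2) = true := by
  decide +kernel

end Pool.Agent.TH201.Ph
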