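import Pool.Agent.TH201.Ph.Chk

set_option autoImplicit false

/-!
# The triple system and the coefficient lemma
-/

namespace Pool.Agent.TH201.Ph

/-- A vertex: its level and its label. -/
abbrev Vx := ℕ × Fin 7

/-- Indices of rows: rows of blocks and rows of the two end gadgets. -/
inductive Ix
  | blk (i : ℕ) (j : Fin 6) (s : Bool)
  | gad (e : Bool) (s : Bool)

open Ix

/-- Row indices in range. -/
def Ok (K : ℕ) : Ix → Prop
  | blk i _ _ => 1 ≤ i ∧ i ≤ K
  | gad _ _ => True

/-- The end levels. -/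
def endp (K : ℕ) (e : Bool) : ℕ := cond e K 0

/-- The vertex of colour `c` of a row. -/
def bd (K : ℕ) (c : Fin 3) : Ix → Vx
  | blk i j s => if hub c (lb c j s) then (0, 0) else (if fl c j s then i - 1 else i, lb c j s)
  | gad e s => if c = 2 then (endp K e, 0) else if (c = 0 ↔ s = false) then (endp K e, 1)
      else (0, 0)

/-- Vertices in range. -/
def OkV (K : ℕ) (c : Fin 3) (v : Vx) : Prop :=
  if c = 2 then (v.2 = 0 ∧ (v.1 = 0 ∨ v.1 = K)) ∨ (v.2 ≠ 0 ∧ 1 ≤ v.1 ∧ v.1 ≤ K)
  else (v.2 = 0 ∧ v.1 = 0) ∨ (v.2 = 1 ∧ v.1 ≤ K) ∨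
    (v.2 ≠ 0 ∧ v.2 ≠ 1 ∧ v.2 ≠ 6 ∧ 1 ≤ v.1 ∧ v.1 ≤ K)

/-- Coefficient of a vertex at a generator. -/
def cf (c : Fin 3) (v : Vx) (n : ℕ) (t : Fin 4) : ℤ :=
  (if n = v.1 then cur c v.2 t else 0) + (if n + 1 = v.1 ∧ t = 0 then prv c v.2 else 0)

theorem OkV.le {K : ℕ} {c : Fin 3} {v : Vx} (h : OkV K c v) : v.1 ≤ K := by
  unfold OkV at h
  split_ifs at h
  · rcases h with ⟨_, h | h⟩ | ⟨_, _, h⟩ <;> omega
  · rcases h with ⟨_, h⟩ | ⟨_, h⟩ | ⟨_, _, _, _, h⟩ <;> omega

theorem OkV.okL {K : ℕ} {c : Fin 3} {v : Vx} (h : OkV K c v) : okL c v.2 = true := by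
  unfold OkV at h
  unfold Ph.okL
  split_ifs at h with h2
  · subst h2; rfl
  · have h6 : v.2 ≠ 6 := by
      rcases h with ⟨h, _⟩ | ⟨h, _⟩ | ⟨_, _, h, _⟩
      · rw [h]; decide
      · rw [h]; decide
      · exact h
    have : (v.2.val != 6) = true := by
      simp only [bne_iff_ne, ne_eq]
      intro h7
      exact h6 (Fin.ext h7)
    rw [this, Bool.or_true]

theorem cur_hub : ∀ (c : Fin 3) (l : Fin 7) (t : Fin 4), hub c l = true → cur c l t = 0 := by
  decide

theorem prv_hub : ∀ (c : Fin 3) (l : Fin 7), hub c l = true → prv c l = 0 := by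
  decide

theorem prv_low : ∀ (c : Fin 3) (l : Fin 7), l = 0 ∨ (c ≠ 2 ∧ l = 1) → prv c l = 0 := by
  decide

theorem OkV.prv {K : ℕ} {c : Fin 3} {v : Vx} (h : OkV K c v) (h0 : v.1 = 0) : prv c v.2 = 0 := by
  apply prv_low
  unfold OkV at h
  split_ifs at h with h2
  · rcases h with ⟨h, _⟩ | ⟨_, h, _⟩
    · exact Or.inl h
    · omega
  · rcases h with ⟨h, _⟩ | ⟨h, _⟩ | ⟨_, _, _, h, _⟩
    · exact Or.inl h
    · exact Or.inr ⟨h2, h⟩
    · omega

theorem OkV.hub {K : ℕ} {c : Fin 3} {v : Vx} (h : OkV K c v) (h0 : hub c v.2 = true) :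
    v = (0, 0) := by
  unfold Ph.hub at h0
  simp only [Bool.and_eq_true, bne_iff_ne, ne_eq, beq_iff_eq] at h0
  obtain ⟨h1, h2⟩ := h0
  have hc : c ≠ 2 := fun h => h1 (by rw [h]; rfl)
  have hl : v.2 = 0 := Fin.ext h2
  unfold OkV at h
  rw [if_neg hc] at h
  rcases h with ⟨_, h⟩ | ⟨h, _⟩ | ⟨h, _⟩
  · exact Prod.ext h hl
  · rw [hl] at h; exact absurd h (by decide)
  · exact absurd hl h

/-- The state of a level relative to the top level. -/
def st (M i : ℕ) : Fin 3 := if i = M then 0 else if i + 1 = M then 1 else 2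

theorem st_zero {M i : ℕ} : st M i = 0 ↔ i = M := by
  unfold st; split_ifs <;> simp_all
theorem st_one {M i : ℕ} : st M i = 1 ↔ i + 1 = M := by
  unfold st; split_ifs <;> simp_all
theorem st_two {M i : ℕ} : st M i = 2 ↔ i ≠ M ∧ i + 1 ≠ M := by
  unfold st; split_ifs <;> simp_all

theorem tri_eta {α : Type} (f : Fin 3 → α) : tri (f 0) (f 1) (f 2) = f := by
  funext i
  fin_cases i <;> rfl

/-- The total coefficient at a generator. -/
def tot (v : Fin 3 → Vx) (n : ℕ) (t : Fin 4) : ℤ := cf 0 (v 0) n t + cf 1 (v 1) n t + cf 2 (v 2) n t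

theorem unit1_iff (x : ℤ) : unit1 x = true ↔ x = 1 ∨ x = -1 := by
  unfold unit1; simp

theorem lb_two : ∀ (j : Fin 6) (b : Bool), lb 2 j b ≠ 0 := by decide

theorem triple {K : ℕ} (v : Fin 3 → Vx) (hv : ∀ c, OkV K c (v c)) :
    (∃ ix, Ok K ix ∧ ∀ c, bd K c ix = v c) ∨
      ∃ n t, n ≤ K ∧ (tot v n t = 1 ∨ tot v n t = -1) := by
  obtain ⟨M, hM⟩ : ∃ M, M = max (v 0).1 (max (v 1).1 (v 2).1) := ⟨_, rfl⟩
  have hle : ∀ c, (v c).1 ≤ M := by
    intro c
    rw [hM]
    fin_cases c
    · exact le_max_left _ _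
    · exact (le_max_left _ _).trans (le_max_right _ _)
    · exact (le_max_right _ _).trans (le_max_right _ _)
  have hMK : M ≤ K := by
    rw [hM]
    exact max_le (hv 0).le (max_le (hv 1).le (hv 2).le)
  set l : Fin 3 → Fin 7 := fun c => (v c).2 with hl
  set s : Fin 3 → Fin 3 := fun c => st M (v c).1 with hs
  have htop : topC l s = true := by
    unfold topC
    rw [List.any_eq_true]
    by_cases h2 : (v 2).1 = M
    · refine ⟨2, List.mem_finRange _, ?_⟩
      have : s 2 = 0 := st_zero.2 h2
      rw [this]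
      rfl
    · have h3 : (v 0).1 = M ∨ (v 1).1 = M := by
        rcases max_choice (v 0).1 (max (v 1).1 (v 2).1) with h | h
        · left; rw [hM, h]
        · rcases max_choice (v 1).1 (v 2).1 with h' | h'
          · right; rw [hM, h, h']
          · exfalso; apply h2; rw [hM, h, h']
      have hM0 : M ≠ 0 := by
        intro h0
        have := hle 2
        omega
      rcases h3 with h3 | h3
      · refine ⟨0, List.mem_finRange _, ?_⟩
        have e1 : s 0 = 0 := st_zero.2 h3
        have e2 : hub 0 (l 0) = false := by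
          by_contra h
          have := (hv 0).hub (by simpa using h)
          rw [this] at h3
          exact hM0 h3.symm
        rw [e1, e2]; rfl
      · refine ⟨1, List.mem_finRange _, ?_⟩
        have e1 : s 1 = 0 := st_zero.2 h3
        have e2 : hub 1 (l 1) = false := by
          by_contra h
          have := (hv 1).hub (by simpa using h)
          rw [this] at h3
          exact hM0 h3.symm
        rw [e1, e2]; rfl
  have halt : alt l s = true := by
    have := alt_all (l 0) (l 1) (l 2) (s 0) (s 1) (s 2) (hv 0).okL (hv 1).okL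
    rw [tri_eta, tri_eta] at this
    exact this htop
  have hcf0 : ∀ (c : Fin 3) (t : Fin 4), cf c (v c) M t = if s c = 0 then cur c (l c) t else 0 := by
    intro c t
    have h1 := hle c
    unfold cf
    rw [if_neg (show ¬ (M + 1 = (v c).1 ∧ t = 0) by omega), add_zero]
    by_cases h : M = (v c).1
    · rw [if_pos h, if_pos (st_zero.2 h.symm)]
    · rw [if_neg h, if_neg (fun h' => h (st_zero.1 h').symm)]
  unfold alt at halt
  simp only [Bool.or_eq_true, List.any_eq_true] at halt
  rcases halt with ((((⟨t, _, ht⟩ | ⟨t, _, ht⟩) | ⟨c, _, hc⟩) | ⟨j, _, hj⟩) | hg) | hg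
  · right
    refine ⟨M, t, hMK, ?_⟩
    rw [unit1_iff] at ht
    unfold T0 at ht
    unfold tot
    rw [hcf0, hcf0, hcf0]
    exact ht
  · right
    rw [unit1_iff] at ht
    by_cases hM0 : M = 0
    · exfalso
      have h1 : ∀ c, s c = 0 := fun c => st_zero.2 (by have := hle c; omega)
      have h2 : ∀ c, prv c (l c) = 0 := fun c => (hv c).prv (by have := hle c; omega)
      have h3 : T1 l s t = 0 := by
        unfold T1
        rw [h1 0, h1 1, h1 2, h2 0, h2 1, h2 2]
        simp
      rw [h3] at ht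
      omega
    · obtain ⟨m, rfl⟩ : ∃ m, M = m + 1 := ⟨M - 1, by omega⟩
      refine ⟨m, t, by omega, ?_⟩
      have hcf1 : ∀ (c : Fin 3), cf c (v c) m t = if s c = 1 then cur c (l c) t
          else if s c = 0 ∧ t = 0 then prv c (l c) else 0 := by
        intro c
        unfold cf
        by_cases h : m = (v c).1
        · rw [if_pos h, if_neg (by omega), if_pos (st_one.2 (by omega)), add_zero]
        · have hs1 : s c ≠ 1 := fun h' => h (by have := st_one.1 h'; omega)
          rw [if_neg h, zero_add, if_neg hs1]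
          by_cases h2 : t = 0
          · by_cases h3 : m + 1 = (v c).1
            · rw [if_pos ⟨h3, h2⟩, if_pos ⟨st_zero.2 h3.symm, h2⟩]
            · rw [if_neg (fun h' => h3 h'.1), if_neg (fun h' => h3 (st_zero.1 h'.1).symm)]
          · rw [if_neg (fun h' => h2 h'.2), if_neg (fun h' => h2 h'.2)]
      unfold T1 at ht
      unfold tot
      rw [hcf1, hcf1, hcf1]
      exact ht
  · right
    unfold lowC at hc
    simp only [Bool.and_eq_true, List.any_eq_true, List.all_eq_true, beq_iff_eq,
      Bool.or_eq_true] at hc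
    obtain ⟨⟨h1, t, _, ht⟩, h3⟩ := hc
    obtain ⟨h1a, h1b⟩ := st_two.1 h1
    have hz : ∀ c', c' ≠ c → cf c' (v c') (v c).1 t = 0 := by
      intro c' hne
      rcases h3 c' (List.mem_finRange _) with (h | h) | h
      · exact absurd h hne
      · have h4 := st_zero.1 h
        have h5 := hle c
        unfold cf
        rw [if_neg (by omega), if_neg (by omega), add_zero]
      · unfold cf
        rw [cur_hub c' _ t h, prv_hub c' _ h]
        simp
    have hown : cf c (v c) (v c).1 t = cur c (l c) t := by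
      unfold cf
      rw [if_pos rfl, if_neg (by omega), add_zero]
    refine ⟨(v c).1, t, (hv c).le, ?_⟩
    rw [unit1_iff, ← hown] at ht
    unfold tot
    fin_cases c
    · have e1 := hz 1 (by decide)
      have e2 := hz 2 (by decide)
      simp only [Fin.zero_eta] at e1 e2 ht ⊢
      rw [e1, e2, add_zero, add_zero]; exact ht
    · have e1 := hz 0 (by decide)
      have e2 := hz 2 (by decide)
      simp only [Fin.mk_one] at e1 e2 ht ⊢
      rw [e1, e2, add_zero, zero_add]; exact ht
    · have e1 := hz 0 (by decide)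
      have e2 := hz 1 (by decide)
      simp only [Fin.reduceFinMk] at e1 e2 ht ⊢
      rw [e1, e2, zero_add, zero_add]; exact ht
  · left
    obtain ⟨b, hb⟩ : ∃ b, rowC l s j b = true := by
      rcases hj with h | h
      · exact ⟨_, h⟩
      · exact ⟨_, h⟩
    unfold rowC at hb
    simp only [List.all_eq_true, Bool.and_eq_true, beq_iff_eq, Bool.or_eq_true] at hb
    have h2 := hb 2 (List.mem_finRange _)
    have hl2 : (v 2).2 ≠ 0 := by
      have : l 2 ≠ 0 := by rw [← h2.1]; exact lb_two j b
      exact this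
    have hv2 := hv 2
    unfold OkV at hv2
    rw [if_pos rfl] at hv2
    have hlev : 1 ≤ (v 2).1 := by
      rcases hv2 with h | h
      · exact absurd h.1 hl2
      · exact h.2.1
    have hM1 : 1 ≤ M := hlev.trans (hle 2)
    refine ⟨blk M j b, ⟨hM1, hMK⟩, fun c => ?_⟩
    obtain ⟨e1, e2⟩ := hb c (List.mem_finRange _)
    show (if hub c (lb c j b) then ((0, 0) : Vx) else (if fl c j b then M - 1 else M, lb c j b)) = _
    rw [e1]
    by_cases h : hub c (l c) = true
    · rw [if_pos h]
      exact ((hv c).hub h).symm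
    · rw [if_neg h]
      rcases e2 with e2 | e2
      · exact absurd e2 h
      · refine Prod.ext ?_ rfl
        by_cases hf : fl c j b = true
        · rw [if_pos hf] at e2
          have := st_one.1 e2
          simp only [hf, if_true]
          omega
        · rw [if_neg hf] at e2
          have := st_zero.1 e2
          simp only [hf]
          exact this.symm
  · left
    unfold gadC at hg
    simp only [Bool.and_eq_true, beq_iff_eq, Bool.false_eq_true, if_false] at hg
    obtain ⟨⟨g1, g2⟩, ⟨g3, g4⟩, g5⟩ := hg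
    have hv2 := hv 2
    unfold OkV at hv2
    rw [if_pos rfl] at hv2
    have hM2 := st_zero.1 g2
    have hM0 := st_zero.1 g5
    have h1 : v 1 = (0, 0) := (hv 1).hub (by rw [show (v 1).2 = 0 from g4]; rfl)
    have hor : (v 2).1 = 0 ∨ (v 2).1 = K := by
      rcases hv2 with h | h
      · exact h.2
      · exact absurd g1 h.1
    have hex : ∃ e, endp K e = M := by
      rcases hor with h | h
      · exact ⟨false, by rw [← hM2, h]; rfl⟩
      · exact ⟨true, by rw [← hM2, h]; rfl⟩
    obtain ⟨e, he⟩ := hex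
    refine ⟨gad e false, trivial, fun c => ?_⟩
    fin_cases c
    · refine Prod.ext (he.trans hM0.symm) g3.symm
    · exact h1.symm
    · refine Prod.ext (he.trans hM2.symm) g1.symm
  · left
    unfold gadC at hg
    simp only [Bool.and_eq_true, beq_iff_eq, if_true] at hg
    obtain ⟨⟨g1, g2⟩, ⟨g3, g4⟩, g5⟩ := hg
    have hv2 := hv 2
    unfold OkV at hv2
    rw [if_pos rfl] at hv2
    have hM2 := st_zero.1 g2
    have hM0 := st_zero.1 g5
    have h1 : v 0 = (0, 0) := (hv 0).hub (by rw [show (v 0).2 = 0 from g3]; rfl)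
    have hor : (v 2).1 = 0 ∨ (v 2).1 = K := by
      rcases hv2 with h | h
      · exact h.2
      · exact absurd g1 h.1
    have hex : ∃ e, endp K e = M := by
      rcases hor with h | h
      · exact ⟨false, by rw [← hM2, h]; rfl⟩
      · exact ⟨true, by rw [← hM2, h]; rfl⟩
    obtain ⟨e, he⟩ := hex
    refine ⟨gad e true, trivial, fun c => ?_⟩
    fin_cases c
    · exact h1.symm
    · refine Prod.ext (he.trans hM0.symm) g4.symm
    · refine Prod.ext (he.trans hM2.symm) g1.symm

end Pool.Agent.TH201.Ph
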