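import Pool.Agent.TH201.Ph.Ker

set_option autoImplicit false

/-!
# The two tables and their fibre
-/

namespace Pool.Agent.TH201.Ph

open Ix
open Pool.Agent.H929R3 (co co_ext marg E0 lin lin_apply marg_cast)

variable {G : Type} [AddCommGroup G]

/-- the unit vector of a vertex -/
noncomputable def ev (K : ℕ) (g : Fin (K + 1) × Fin 4 → G) (c : Fin 3) (v : Vx) :
    (Fin 3 × G) →₀ ℕ :=
  Finsupp.single (c, psi K g c v) 1

/-- the rows of one sign of a block -/
noncomputable def BB (K : ℕ) (g : Fin (K + 1) × Fin 4 → G) (i : ℕ) (s : Bool) : (G × G) →₀ ℕ :=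
  ∑ j : Fin 6, Finsupp.single (row K g (blk i j s)) 1

/-- the lower part of the tables -/
noncomputable def UU (K : ℕ) (g : Fin (K + 1) × Fin 4 → G) (m : ℕ) (s : Bool) : (G × G) →₀ ℕ :=
  ∑ i ∈ Finset.range m, 2 ^ i • BB K g (i + 1) s

/-- the tables -/
noncomputable def TT (K : ℕ) (g : Fin (K + 1) × Fin 4 → G) (s : Bool) : (G × G) →₀ ℕ :=
  Finsupp.single (row K g (gad false s)) 1 + UU K g K s +
    2 ^ K • Finsupp.single (row K g (gad true (!s))) 1

theorem lin_row (K : ℕ) (g : Fin (K + 1) × Fin 4 → G) (ix : Ix) (h : Ok K ix) :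
    lin E0 (Finsupp.single (row K g ix) 1) =
      ev K g 0 (bd K 0 ix) + ev K g 1 (bd K 1 ix) + ev K g 2 (bd K 2 ix) := by
  rw [lin, Finsupp.linearCombination_single, one_smul, E0, Fin.sum_univ_three]
  rw [co_row K g 0 ix h, co_row K g 1 ix h, co_row K g 2 ix h]
  rfl

theorem blk_eq (K : ℕ) (g : Fin (K + 1) × Fin 4 → G) (i : ℕ) (hi : 1 ≤ i + 1 ∧ i + 1 ≤ K) :
    lin E0 (BB K g (i + 1) false) +
      (ev K g 0 (0, 0) + ev K g 0 (i, 1) + 2 • ev K g 1 (i + 1, 1)) =
    lin E0 (BB K g (i + 1) true) +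
      (ev K g 1 (0, 0) + ev K g 1 (i, 1) + 2 • ev K g 0 (i + 1, 1)) := by
  have h : ∀ s, lin E0 (BB K g (i + 1) s) =
      ∑ j : Fin 6, (ev K g 0 (bd K 0 (blk (i + 1) j s)) + ev K g 1 (bd K 1 (blk (i + 1) j s)) +
        ev K g 2 (bd K 2 (blk (i + 1) j s))) := by
    intro s
    unfold BB
    rw [map_sum]
    refine Finset.sum_congr rfl fun j _ => ?_
    exact lin_row K g (blk (i + 1) j s) hi
  rw [h, h]
  have d0 : ∀ j s, bd K 0 (blk (i + 1) j s) =
      if hub 0 (lb 0 j s) then ((0, 0) : Vx) else (if fl 0 j s then i else i + 1, lb 0 j s) :=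
    fun _ _ => rfl
  have d1 : ∀ j s, bd K 1 (blk (i + 1) j s) =
      if hub 1 (lb 1 j s) then ((0, 0) : Vx) else (if fl 1 j s then i else i + 1, lb 1 j s) :=
    fun _ _ => rfl
  have d2 : ∀ j s, bd K 2 (blk (i + 1) j s) =
      if hub 2 (lb 2 j s) then ((0, 0) : Vx) else (if fl 2 j s then i else i + 1, lb 2 j s) :=
    fun _ _ => rfl
  simp only [Fin.sum_univ_six]
  have a0 : bd K 0 (blk (i + 1) 0 false) = (i + 1, 1) := rfl
  have a1 : bd K 0 (blk (i + 1) 1 false) = (i + 1, 1) := rfl
  have a2 : bd K 0 (blk (i + 1) 2 false) = (i + 1, 2) := rfl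
  have a3 : bd K 0 (blk (i + 1) 3 false) = (i + 1, 3) := rfl
  have a4 : bd K 0 (blk (i + 1) 4 false) = (i + 1, 4) := rfl
  have a5 : bd K 0 (blk (i + 1) 5 false) = (i + 1, 5) := rfl
  have b0 : bd K 1 (blk (i + 1) 0 false) = (i + 1, 5) := rfl
  have b1 : bd K 1 (blk (i + 1) 1 false) = (i + 1, 4) := rfl
  have b2 : bd K 1 (blk (i + 1) 2 false) = (i, 1) := rfl
  have b3 : bd K 1 (blk (i + 1) 3 false) = (i + 1, 2) := rfl
  have b4 : bd K 1 (blk (i + 1) 4 false) = (0, 0) := rfl
  have b5 : bd K 1 (blk (i + 1) 5 false) = (i + 1, 3) := rfl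
  have a0' : bd K 0 (blk (i + 1) 0 true) = (0, 0) := rfl
  have a1' : bd K 0 (blk (i + 1) 1 true) = (i + 1, 5) := rfl
  have a2' : bd K 0 (blk (i + 1) 2 true) = (i + 1, 3) := rfl
  have a3' : bd K 0 (blk (i + 1) 3 true) = (i + 1, 4) := rfl
  have a4' : bd K 0 (blk (i + 1) 4 true) = (i + 1, 2) := rfl
  have a5' : bd K 0 (blk (i + 1) 5 true) = (i, 1) := rfl
  have b0' : bd K 1 (blk (i + 1) 0 true) = (i + 1, 3) := rfl
  have b1' : bd K 1 (blk (i + 1) 1 true) = (i + 1, 1) := rfl
  have b2' : bd K 1 (blk (i + 1) 2 true) = (i + 1, 5) := rfl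
  have b3' : bd K 1 (blk (i + 1) 3 true) = (i + 1, 4) := rfl
  have b4' : bd K 1 (blk (i + 1) 4 true) = (i + 1, 1) := rfl
  have b5' : bd K 1 (blk (i + 1) 5 true) = (i + 1, 2) := rfl
  have c' : ∀ j, bd K 2 (blk (i + 1) j true) = bd K 2 (blk (i + 1) j false) := by
    intro j
    fin_cases j <;> rfl
  simp only [c', a0, a1, a2, a3, a4, a5, b0, b1, b2, b3, b4, b5, a0', a1', a2', a3', a4', a5',
    b0', b1', b2', b3', b4', b5', two_smul]
  abel

theorem claim (K : ℕ) (g : Fin (K + 1) × Fin 4 → G) (m : ℕ) (hm : m ≤ K) :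
    ev K g 0 (0, 1) + lin E0 (UU K g m false) + (2 ^ m - 1) • ev K g 0 (0, 0) +
      2 ^ m • ev K g 1 (m, 1) =
    ev K g 1 (0, 1) + lin E0 (UU K g m true) + (2 ^ m - 1) • ev K g 1 (0, 0) +
      2 ^ m • ev K g 0 (m, 1) := by
  induction m with
  | zero =>
    simp only [UU, Finset.range_zero, Finset.sum_empty, map_zero, pow_zero, one_smul]
    simp
    rw [add_comm]
  | succ m ih =>
    have h1 := ih (by omega)
    have h2 := blk_eq K g m ⟨by omega, hm⟩
    have hU : ∀ s, lin E0 (UU K g (m + 1) s) = lin E0 (UU K g m s) +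
        2 ^ m • lin E0 (BB K g (m + 1) s) := by
      intro s
      unfold UU
      rw [Finset.sum_range_succ, map_add, map_nsmul]
    rw [hU, hU]
    have h3 : 2 ^ (m + 1) - 1 = (2 ^ m - 1) + 2 ^ m := by
      have := Nat.one_le_two_pow (n := m)
      rw [pow_succ]; omega
    have h4 : 2 ^ (m + 1) = 2 ^ m * 2 := pow_succ 2 m
    rw [h3, h4, add_smul, add_smul, mul_smul, mul_smul]
    have h5 := congrArg (fun x => 2 ^ m • x) h2
    simp only [smul_add] at h5
    generalize lin E0 (UU K g m false) = A at *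
    generalize lin E0 (UU K g m true) = A' at *
    generalize 2 ^ m • lin E0 (BB K g (m + 1) false) = B at *
    generalize 2 ^ m • lin E0 (BB K g (m + 1) true) = B' at *
    generalize (2 ^ m - 1) • ev K g 0 (0, 0) = O at *
    generalize (2 ^ m - 1) • ev K g 1 (0, 0) = Q at *
    generalize 2 ^ m • ev K g 0 (0, 0) = O2 at *
    generalize 2 ^ m • ev K g 1 (0, 0) = Q2 at *
    generalize 2 ^ m • ev K g 0 (m, 1) = P at *
    generalize 2 ^ m • ev K g 1 (m, 1) = R at *
    generalize 2 ^ m • 2 • ev K g 0 (m + 1, 1) = P' at *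
    generalize 2 ^ m • 2 • ev K g 1 (m + 1, 1) = R' at *
    generalize ev K g 0 (0, 1) = p0 at *
    generalize ev K g 1 (0, 1) = r0 at *
    have h6 : (p0 + (A + B) + (O + O2) + R') + (R + P) = (r0 + (A' + B') + (Q + Q2) + P') + (R + P) := by
      calc (p0 + (A + B) + (O + O2) + R') + (R + P)
          = (p0 + A + O + R) + (B + (O2 + P + R')) := by abel
        _ = (r0 + A' + Q + P) + (B' + (Q2 + R + P')) := by rw [h1, h5]
        _ = (r0 + (A' + B') + (Q + Q2) + P') + (R + P) := by abel
    exact add_right_cancel h6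

theorem lin_TT (K : ℕ) (g : Fin (K + 1) × Fin 4 → G) :
    lin E0 (TT K g false) = lin E0 (TT K g true) := by
  have h := claim K g K le_rfl
  unfold TT
  rw [map_add, map_add, map_add, map_add, map_nsmul, map_nsmul]
  rw [lin_row K g (gad false false) trivial, lin_row K g (gad false true) trivial,
    lin_row K g (gad true (!false)) trivial, lin_row K g (gad true (!true)) trivial]
  have e1 : bd K 0 (gad false false) = (0, 1) := rfl
  have e2 : bd K 1 (gad false false) = (0, 0) := rfl
  have e3 : bd K 2 (gad false false) = (0, 0) := rfl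
  have e4 : bd K 0 (gad false true) = (0, 0) := rfl
  have e5 : bd K 1 (gad false true) = (0, 1) := rfl
  have e6 : bd K 2 (gad false true) = (0, 0) := rfl
  have e7 : bd K 0 (gad true (!false)) = (0, 0) := rfl
  have e8 : bd K 1 (gad true (!false)) = (K, 1) := rfl
  have e9 : bd K 2 (gad true (!false)) = (K, 0) := rfl
  have f1 : bd K 0 (gad true (!true)) = (K, 1) := rfl
  have f2 : bd K 1 (gad true (!true)) = (0, 0) := rfl
  have f3 : bd K 2 (gad true (!true)) = (K, 0) := rfl
  rw [e1, e2, e3, e4, e5, e6, e7, e8, e9, f1, f2, f3]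
  have h3 : 2 ^ K = (2 ^ K - 1) + 1 := by
    have := Nat.one_le_two_pow (n := K)
    omega
  have hO : 2 ^ K • ev K g 0 (0, 0) = (2 ^ K - 1) • ev K g 0 (0, 0) + ev K g 0 (0, 0) := by
    conv_lhs => rw [h3]
    rw [add_smul, one_smul]
  have hQ : 2 ^ K • ev K g 1 (0, 0) = (2 ^ K - 1) • ev K g 1 (0, 0) + ev K g 1 (0, 0) := by
    conv_lhs => rw [h3]
    rw [add_smul, one_smul]
  rw [smul_add, smul_add, smul_add, smul_add, hO, hQ]
  calc _ = (ev K g 0 (0, 1) + lin E0 (UU K g K false) + (2 ^ K - 1) • ev K g 0 (0, 0) +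
      2 ^ K • ev K g 1 (K, 1)) + (ev K g 1 (0, 0) + ev K g 2 (0, 0) + ev K g 0 (0, 0) +
      2 ^ K • ev K g 2 (K, 0)) := by abel
    _ = (ev K g 1 (0, 1) + lin E0 (UU K g K true) + (2 ^ K - 1) • ev K g 1 (0, 0) +
      2 ^ K • ev K g 0 (K, 1)) + (ev K g 1 (0, 0) + ev K g 2 (0, 0) + ev K g 0 (0, 0) +
      2 ^ K • ev K g 2 (K, 0)) := by rw [h]
    _ = _ := by abel

theorem degree_TT (K : ℕ) (g : Fin (K + 1) × Fin 4 → G) (s : Bool) :
    (TT K g s).degree + 5 = 7 * 2 ^ K := by
  have hU : ∀ m, (UU K g m s).degree + 6 = 6 * 2 ^ m := by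
    intro m
    induction m with
    | zero => simp [UU]
    | succ m ih =>
      have h1 : UU K g (m + 1) s = UU K g m s + 2 ^ m • BB K g (m + 1) s := by
        unfold UU
        rw [Finset.sum_range_succ]
      have h2 : (BB K g (m + 1) s).degree = 6 := by
        unfold BB
        rw [map_sum]
        simp [Finsupp.degree_single]
      rw [h1, map_add, map_nsmul, h2, smul_eq_mul, pow_succ]
      omega
  have h := hU K
  unfold TT
  rw [map_add, map_add, map_nsmul, Finsupp.degree_single, Finsupp.degree_single, smul_eq_mul]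
  omega

/-- the sign of a row -/
def par : Ix → Bool
  | blk _ _ s => s
  | gad e s => if e then !s else s

theorem supp_single {ix : Ix} {K : ℕ} {g : Fin (K + 1) × Fin 4 → G} {r : G × G}
    (h : (Finsupp.single (row K g ix) 1 : (G × G) →₀ ℕ) r ≠ 0) : r = row K g ix := by
  classical
  by_contra h1
  apply h
  rw [Finsupp.single_apply, if_neg (Ne.symm h1)]

theorem supp_TT (K : ℕ) (g : Fin (K + 1) × Fin 4 → G) (s : Bool) (r : G × G)
    (hr : TT K g s r ≠ 0) : ∃ ix, Ok K ix ∧ r = row K g ix ∧ par ix = s := by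
  unfold TT at hr
  rw [Finsupp.add_apply, Finsupp.add_apply, Finsupp.smul_apply, smul_eq_mul] at hr
  by_cases h1 : (Finsupp.single (row K g (gad false s)) 1 : (G × G) →₀ ℕ) r = 0
  · by_cases h2 : UU K g K s r = 0
    · have h3 : (Finsupp.single (row K g (gad true (!s))) 1 : (G × G) →₀ ℕ) r ≠ 0 := by
        intro h3
        rw [h1, h2, h3] at hr
        simp at hr
      exact ⟨gad true (!s), trivial, supp_single h3, by cases s <;> rfl⟩
    · unfold UU at h2
      rw [Finsupp.finsetSum_apply] at h2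
      obtain ⟨i, hi, h4⟩ := Finset.exists_ne_zero_of_sum_ne_zero h2
      rw [Finsupp.smul_apply, smul_eq_mul] at h4
      have h5 : BB K g (i + 1) s r ≠ 0 := right_ne_zero_of_mul h4
      unfold BB at h5
      rw [Finsupp.finsetSum_apply] at h5
      obtain ⟨j, _, h6⟩ := Finset.exists_ne_zero_of_sum_ne_zero h5
      have hi' := Finset.mem_range.1 hi
      exact ⟨blk (i + 1) j s, ⟨by omega, by omega⟩, supp_single h6, rfl⟩
  · exact ⟨gad false s, trivial, supp_single h1, rfl⟩

theorem disj_TT {K : ℕ} (hK : 1 ≤ K) {g : Fin (K + 1) × Fin 4 → G} (hg : Good K g) (r : G × G) :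
    TT K g false r = 0 ∨ TT K g true r = 0 := by
  by_contra hcon
  push Not at hcon
  obtain ⟨ix, hok, hrow, hpar⟩ := supp_TT K g false r hcon.1
  obtain ⟨ix', hok', hrow', hpar'⟩ := supp_TT K g true r hcon.2
  have h := row_inj hK hg hok hok' (hrow.symm.trans hrow')
  rw [h, hpar'] at hpar
  exact absurd hpar (by decide)

theorem TT_bot {K : ℕ} (hK : 1 ≤ K) {g : Fin (K + 1) × Fin 4 → G} (hg : Good K g) (s : Bool) :
    TT K g s (row K g (gad false s)) = 1 := by
  have h1 : UU K g K s (row K g (gad false s)) = 0 := by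
    by_contra h2
    unfold UU at h2
    rw [Finsupp.finsetSum_apply] at h2
    obtain ⟨i, hi, h4⟩ := Finset.exists_ne_zero_of_sum_ne_zero h2
    rw [Finsupp.smul_apply, smul_eq_mul] at h4
    have h5 : BB K g (i + 1) s (row K g (gad false s)) ≠ 0 := right_ne_zero_of_mul h4
    unfold BB at h5
    rw [Finsupp.finsetSum_apply] at h5
    obtain ⟨j, _, h6⟩ := Finset.exists_ne_zero_of_sum_ne_zero h5
    have hi' := Finset.mem_range.1 hi
    have := row_inj hK hg (ix := gad false s) (ix' := blk (i + 1) j s) trivial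
      ⟨by omega, by omega⟩ (supp_single h6)
    injection this
  have h2 : (Finsupp.single (row K g (gad true (!s))) 1 : (G × G) →₀ ℕ) (row K g (gad false s)) =
      0 := by
    by_contra h2
    have := row_inj hK hg (ix := gad false s) (ix' := gad true (!s)) trivial trivial
      (supp_single h2)
    injection this with h3
    exact absurd h3 (by decide)
  unfold TT
  rw [Finsupp.add_apply, Finsupp.add_apply, Finsupp.smul_apply, h1, h2, Finsupp.single_eq_same]
  simp

/-- The additional row used for the affine chart. -/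
def gz (K : ℕ) (g : Fin (K + 1) × Fin 4 → G) : G × G := row K g (blk 1 0 false)

theorem supp_M [Fintype G] [DecidableEq G] {K : ℕ} (hK : 1 ≤ K) {g : Fin (K + 1) × Fin 4 → G}
    (hg : Good K g) (k : ℕ) (M : (G × G) →₀ ℕ)
    (hM : lin E0 M = lin E0 (TT K g false + Finsupp.single (gz K g) k)) (r : G × G)
    (hr : M r ≠ 0) : ∃ ix, Ok K ix ∧ r = row K g ix := by
  classical
  have hok1 : Ok K (blk 1 0 false) := ⟨le_rfl, hK⟩
  have h1 : ∀ c : Fin 3, ∃ v, OkV K c v ∧ co c r = psi K g c v := by
    intro c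
    have h2 : lin E0 M (c, co c r) ≠ 0 := by
      rw [lin_apply]
      intro h
      have h3 := (Finset.sum_eq_zero_iff.mp h) r (Finset.mem_univ _)
      rw [if_pos rfl] at h3
      exact hr h3
    rw [hM, lin_apply] at h2
    obtain ⟨r', _, h3⟩ := Finset.exists_ne_zero_of_sum_ne_zero h2
    by_cases h4 : co c r' = co c r
    · rw [if_pos h4, Finsupp.add_apply] at h3
      by_cases h5 : TT K g false r' = 0
      · have h6 : r' = gz K g := by
          by_contra h7
          rw [h5, Finsupp.single_apply, if_neg (Ne.symm h7)] at h3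
          exact h3 rfl
        refine ⟨bd K c (blk 1 0 false), OkV_bd c _ hok1, ?_⟩
        rw [← h4, h6, gz, co_row K g c _ hok1]
      · obtain ⟨ix, hok, hrow, _⟩ := supp_TT K g false r' h5
        refine ⟨bd K c ix, OkV_bd c _ hok, ?_⟩
        rw [← h4, hrow, co_row K g c ix hok]
    · rw [if_neg h4] at h3
      exact absurd rfl h3
  choose v hv1 hv2 using h1
  obtain ⟨ix, hok, hb⟩ := hg v hv1 (by
    rw [← hv2, ← hv2, ← hv2]
    show r.1 + r.2 + (- r.1 - r.2) = 0
    abel)
  refine ⟨ix, hok, co_ext fun c => ?_⟩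
  rw [co_row K g c ix hok, hb c, hv2]

/-- The fibre of `T0 + k g0` consists of two elements. -/
theorem fibre [Fintype G] [DecidableEq G] {K : ℕ} (hK : 1 ≤ K) {g : Fin (K + 1) × Fin 4 → G}
    (hg : Good K g) (k : ℕ) (M : (G × G) →₀ ℕ)
    (hM : lin E0 M = lin E0 (TT K g false + Finsupp.single (gz K g) k)) :
    M = TT K g false + Finsupp.single (gz K g) k ∨
      M = TT K g true + Finsupp.single (gz K g) k := by
  classical
  set T0 := TT K g false with hT0
  set T1 := TT K g true with hT1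
  set r0 := row K g (gad false false) with hr0
  have hok1 : Ok K (blk 1 0 false) := ⟨le_rfl, hK⟩
  have hne : gz K g ≠ r0 := by
    intro h
    have := row_inj hK hg (ix := blk 1 0 false) (ix' := gad false false) hok1 trivial h
    injection this
  have hT00 : T0 r0 = 1 := TT_bot hK hg false
  have hT10 : T1 r0 = 0 := by
    rcases disj_TT hK hg r0 with h | h
    · rw [← hT0, hT00] at h; exact absurd h one_ne_zero
    · exact h
  set rp := row K g (gad false true) with hrp
  have hp1 : T1 rp = 1 := TT_bot hK hg true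
  have hp0 : T0 rp = 0 := by
    rcases disj_TT hK hg rp with h | h
    · exact h
    · rw [← hT1, hp1] at h; exact absurd h one_ne_zero
  have hpg : gz K g ≠ rp := by
    intro h
    have := row_inj hK hg (ix := blk 1 0 false) (ix' := gad false true) hok1 trivial h
    injection this
  -- the kernel vector
  set a : ℤ := 1 - (M r0 : ℤ) with ha
  have hz : ∀ r, ((M r : ℤ) - T0 r - (Finsupp.single (gz K g) k r : ℕ)
      + a * ((T0 r : ℤ) - T1 r)) = 0 := by
    apply ker_zero hK hg
    · intro r hr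
      by_cases h1 : M r = 0
      · by_cases h2 : T0 r = 0
        · by_cases h3 : T1 r = 0
          · by_cases h4 : r = gz K g
            · exact ⟨blk 1 0 false, hok1, h4⟩
            · exfalso
              apply hr
              rw [h1, h2, h3, Finsupp.single_apply, if_neg (Ne.symm h4)]
              simp
          · obtain ⟨ix, hok, hrow, _⟩ := supp_TT K g true r h3
            exact ⟨ix, hok, hrow⟩
        · obtain ⟨ix, hok, hrow, _⟩ := supp_TT K g false r h2
          exact ⟨ix, hok, hrow⟩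
      · exact supp_M hK hg k M hM r h1
    · intro c x
      have e1 : marg (fun r => ((M r : ℤ) - T0 r - (Finsupp.single (gz K g) k r : ℕ)
          + a * ((T0 r : ℤ) - T1 r))) c x
          = marg (fun r => (M r : ℤ)) c x
            - marg (fun r => ((T0 + Finsupp.single (gz K g) k) r : ℕ)) c x
            + a * (marg (fun r => (T0 r : ℤ)) c x - marg (fun r => (T1 r : ℤ)) c x) := by
        unfold marg
        rw [← Finset.sum_sub_distrib, ← Finset.sum_sub_distrib, Finset.mul_sum,
          ← Finset.sum_add_distrib]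
        refine Finset.sum_congr rfl fun r _ => ?_
        split_ifs
        · simp only [Finsupp.add_apply]; push_cast; ring
        · ring
      rw [e1, marg_cast, marg_cast, marg_cast, marg_cast, hM, hT1, ← lin_TT K g, ← hT0]
      ring
    · rw [← hr0, hT00, hT10, Finsupp.single_apply, if_neg hne, ha]
      push_cast; ring
  have h1 := hz rp
  rw [hp0, hp1, Finsupp.single_apply, if_neg hpg] at h1
  push_cast at h1
  have ha0 : 0 ≤ a := by
    have : (0 : ℤ) ≤ M rp := Int.natCast_nonneg _
    linarith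
  have ha1 : a ≤ 1 := by
    have : (0 : ℤ) ≤ M r0 := Int.natCast_nonneg _
    linarith
  have ha2 : a = 0 ∨ a = 1 := by omega
  rcases ha2 with h | h
  · left
    ext r
    have h2 := hz r
    rw [h] at h2
    rw [Finsupp.add_apply]
    have h3 : (M r : ℤ) = T0 r + (Finsupp.single (gz K g) k r : ℕ) := by linarith
    exact_mod_cast h3
  · right
    ext r
    have h2 := hz r
    rw [h] at h2
    rw [Finsupp.add_apply]
    have h3 : (M r : ℤ) = T1 r + (Finsupp.single (gz K g) k r : ℕ) := by linarith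
    exact_mod_cast h3

theorem TT_ne {K : ℕ} (hK : 1 ≤ K) {g : Fin (K + 1) × Fin 4 → G} (hg : Good K g) :
    TT K g false ≠ TT K g true := by
  intro h
  have h1 := TT_bot hK hg false
  rcases disj_TT hK hg (row K g (gad false false)) with h2 | h2
  · rw [h1] at h2; exact one_ne_zero h2
  · rw [← h, h1] at h2; exact one_ne_zero h2

end Pool.Agent.TH201.Ph
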