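import Pool.Agent.TH201.Ph.Emb

set_option autoImplicit false

/-!
# A generic choice of the generators in a large finite abelian group
-/

namespace Pool.Agent.TH201.Ph

open Ix

/-- A linear form with a coefficient `1` or `-1` vanishes on at most `|G| ^ (n - 1)` tuples. -/
theorem card_form {G : Type*} [AddCommGroup G] [Fintype G] [DecidableEq G] {ι : Type*} [Fintype ι]
    [DecidableEq ι] (w : ι → ℤ) (k0 : ι) (h : w k0 = 1 ∨ w k0 = -1) :
    (Finset.univ.filter fun g : ι → G => ∑ k, w k • g k = 0).card * Fintype.card G ≤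
      Fintype.card (ι → G) := by
  classical
  rw [← Finset.card_univ (α := G), ← Finset.card_product, ← Finset.card_univ (α := ι → G)]
  refine Finset.card_le_card_of_injOn (fun x => x.1 + Pi.single k0 x.2) (fun _ _ => Finset.mem_coe.2
    (Finset.mem_univ _)) ?_
  have key : ∀ x : (ι → G) × G, ∑ k, w k • x.1 k = 0 →
      ∑ k, w k • (x.1 + Pi.single k0 x.2 : ι → G) k = w k0 • x.2 := by
    intro x hx
    have h1 : ∑ k, w k • (x.1 + Pi.single k0 x.2 : ι → G) k =
        ∑ k, w k • x.1 k + ∑ k, w k • (Pi.single k0 x.2 : ι → G) k := by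
      rw [← Finset.sum_add_distrib]
      refine Finset.sum_congr rfl fun k _ => ?_
      rw [Pi.add_apply, smul_add]
    rw [h1, hx, zero_add, Finset.sum_eq_single k0]
    · rw [Pi.single_eq_same]
    · intro b _ hb
      rw [Pi.single_eq_of_ne hb, smul_zero]
    · intro h; exact absurd (Finset.mem_univ _) h
  rintro ⟨g, x⟩ hx ⟨g', x'⟩ hx' he
  have hx1 : ∑ k, w k • g k = 0 := by simpa using hx
  have hx2 : ∑ k, w k • g' k = 0 := by simpa using hx'
  have e1 := key (g, x) hx1
  have e2 := key (g', x') hx2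
  have he' : g + Pi.single k0 x = g' + Pi.single k0 x' := he
  simp only at e1 e2
  rw [he', e2] at e1
  have hxx : x = x' := by
    rcases h with h | h
    · rw [h, one_smul, one_smul] at e1; exact e1.symm
    · rw [h, neg_smul, neg_smul, one_smul, one_smul, neg_inj] at e1; exact e1.symm
  subst hxx
  rw [add_right_cancel he']

/-- Finitely many linear forms, each with a coefficient `1` or `-1`, fewer than `|G|` of them, are
simultaneously nonzero at some tuple. -/
theorem exists_avoid {G : Type*} [AddCommGroup G] [Fintype G] {ι : Type*} [Fintype ι]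
    {E : Type*} (B : Finset E) (w : E → ι → ℤ)
    (h : ∀ e ∈ B, ∃ k, w e k = 1 ∨ w e k = -1) (hc : B.card < Fintype.card G) :
    ∃ g : ι → G, ∀ e ∈ B, ∑ k, w e k • g k ≠ 0 := by
  classical
  by_contra hcon
  push Not at hcon
  have h1 : (Finset.univ : Finset (ι → G)) ⊆
      B.biUnion fun e => Finset.univ.filter fun g : ι → G => ∑ k, w e k • g k = 0 := by
    intro g _
    obtain ⟨e, he, h0⟩ := hcon g
    exact Finset.mem_biUnion.2 ⟨e, he, Finset.mem_filter.2 ⟨Finset.mem_univ _, h0⟩⟩
  have h2 : Fintype.card (ι → G) * Fintype.card G ≤ B.card * Fintype.card (ι → G) := by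
    calc Fintype.card (ι → G) * Fintype.card G
        = (Finset.univ : Finset (ι → G)).card * Fintype.card G := by rw [Finset.card_univ]
      _ ≤ (B.biUnion fun e => Finset.univ.filter fun g : ι → G => ∑ k, w e k • g k = 0).card *
          Fintype.card G := Nat.mul_le_mul_right _ (Finset.card_le_card h1)
      _ ≤ (∑ e ∈ B, (Finset.univ.filter fun g : ι → G => ∑ k, w e k • g k = 0).card) *
          Fintype.card G := Nat.mul_le_mul_right _ Finset.card_biUnion_le
      _ = ∑ e ∈ B, (Finset.univ.filter fun g : ι → G => ∑ k, w e k • g k = 0).card *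
          Fintype.card G := Finset.sum_mul _ _ _
      _ ≤ ∑ e ∈ B, Fintype.card (ι → G) := by
          refine Finset.sum_le_sum fun e he => ?_
          obtain ⟨k, hk⟩ := h e he
          exact card_form (w e) k hk
      _ = B.card * Fintype.card (ι → G) := by rw [Finset.sum_const, smul_eq_mul]
  rw [mul_comm] at h2
  have h3 := Nat.le_of_mul_le_mul_right h2 Fintype.card_pos
  omega

/-- The value of a vertex. -/
def psi {G : Type*} [AddCommGroup G] (K : ℕ) (g : Fin (K + 1) × Fin 4 → G) (c : Fin 3) (v : Vx) :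
    G :=
  ∑ k : Fin (K + 1) × Fin 4, cf c v k.1 k.2 • g k

/-- A finite set that contains the vertices. -/
def VS (K : ℕ) (c : Fin 3) : Finset Vx :=
  if c = 2 then {(0, 0), (K, 0)} ∪ (Finset.Icc 1 K ×ˢ (Finset.univ.erase 0))
  else {(0, 0)} ∪ ((Finset.range (K + 1)).image fun i => (i, 1)) ∪
    (Finset.Icc 1 K ×ˢ {2, 3, 4, 5})

theorem mem_VS {K : ℕ} {c : Fin 3} {v : Vx} (h : OkV K c v) : v ∈ VS K c := by
  unfold OkV at h
  unfold VS
  split_ifs with h2
  · rw [if_pos h2] at h
    rw [Finset.mem_union, Finset.mem_product]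
    rcases h with ⟨h3, h4⟩ | ⟨h3, h4, h5⟩
    · left
      rcases h4 with h4 | h4
      · rw [show v = (0, 0) from Prod.ext h4 h3]; simp
      · rw [show v = (K, 0) from Prod.ext h4 h3]; simp
    · right
      exact ⟨Finset.mem_Icc.2 ⟨h4, h5⟩, Finset.mem_erase.2 ⟨h3, Finset.mem_univ _⟩⟩
  · rw [if_neg h2] at h
    rw [Finset.mem_union, Finset.mem_union, Finset.mem_product]
    rcases h with ⟨h3, h4⟩ | ⟨h3, h4⟩ | ⟨h3, h4, h5, h6, h7⟩
    · left; left
      rw [show v = (0, 0) from Prod.ext h4 h3]; simp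
    · left; right
      rw [Finset.mem_image]
      exact ⟨v.1, Finset.mem_range.2 (by omega), Prod.ext rfl h3.symm⟩
    · right
      refine ⟨Finset.mem_Icc.2 ⟨h6, h7⟩, ?_⟩
      have : ∀ l : Fin 7, l ≠ 0 → l ≠ 1 → l ≠ 6 → l ∈ ({2, 3, 4, 5} : Finset (Fin 7)) := by decide
      exact this v.2 h3 h4 h5

theorem card_VS (K : ℕ) (c : Fin 3) : (VS K c).card ≤ if c = 2 then 6 * K + 2 else 5 * K + 2 := by
  unfold VS
  split_ifs with h
  · refine (Finset.card_union_le _ _).trans ?_
    rw [Finset.card_product, Nat.card_Icc]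
    have h1 : ({(0, 0), (K, 0)} : Finset Vx).card ≤ 2 := Finset.card_le_two
    have h2 : (Finset.univ.erase (0 : Fin 7)).card = 6 := by decide
    rw [h2]
    omega
  · refine (Finset.card_union_le _ _).trans ?_
    have h0 := Finset.card_union_le ({(0, 0)} : Finset Vx)
      ((Finset.range (K + 1)).image fun i => (i, 1))
    have h1 : ((Finset.range (K + 1)).image fun i => ((i, 1) : Vx)).card ≤ K + 1 :=
      Finset.card_image_le.trans (by rw [Finset.card_range])
    have h2 : ({2, 3, 4, 5} : Finset (Fin 7)).card = 4 := by decide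
    rw [Finset.card_product, Nat.card_Icc, h2]
    rw [Finset.card_singleton] at h0
    omega

/-- The property of the generators: the only zero sums of vertices are the rows. -/
def Good {G : Type*} [AddCommGroup G] (K : ℕ) (g : Fin (K + 1) × Fin 4 → G) : Prop :=
  ∀ v : Fin 3 → Vx, (∀ c, OkV K c (v c)) → psi K g 0 (v 0) + psi K g 1 (v 1) + psi K g 2 (v 2) = 0 →
    ∃ ix, Ok K ix ∧ ∀ c, bd K c ix = v c

theorem exists_good {G : Type*} [AddCommGroup G] [Fintype G] {K : ℕ}
    (hG : (5 * K + 2) ^ 2 * (6 * K + 2) < Fintype.card G) :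
    ∃ g : Fin (K + 1) × Fin 4 → G, Good K g := by
  classical
  set B : Finset (Fin 3 → Vx) := (Fintype.piFinset (VS K)).filter fun v =>
    (∀ c, OkV K c (v c)) ∧ ¬ ∃ ix, Ok K ix ∧ ∀ c, bd K c ix = v c with hB
  have hcard : B.card < Fintype.card G := by
    refine lt_of_le_of_lt ?_ hG
    refine (Finset.card_filter_le _ _).trans ?_
    rw [Fintype.card_piFinset, Fin.prod_univ_three]
    have h0 := card_VS K 0
    have h1 := card_VS K 1
    have h2 := card_VS K 2
    rw [if_neg (by decide)] at h0 h1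
    rw [if_pos rfl] at h2
    calc (VS K 0).card * (VS K 1).card * (VS K 2).card
        ≤ (5 * K + 2) * (5 * K + 2) * (6 * K + 2) :=
          Nat.mul_le_mul (Nat.mul_le_mul h0 h1) h2
      _ = (5 * K + 2) ^ 2 * (6 * K + 2) := by ring
  obtain ⟨g, hg⟩ := exists_avoid (G := G) (ι := Fin (K + 1) × Fin 4) B
    (fun v k => tot v k.1 k.2) (by
      intro v hv
      rw [hB, Finset.mem_filter] at hv
      rcases triple v hv.2.1 with h | ⟨n, t, hn, h⟩
      · exact absurd h hv.2.2
      · exact ⟨(⟨n, by omega⟩, t), h⟩) hcard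
  refine ⟨g, fun v hv hsum => ?_⟩
  by_contra hno
  refine hg v ?_ ?_
  · rw [hB, Finset.mem_filter, Fintype.mem_piFinset]
    exact ⟨fun c => mem_VS (hv c), hv, hno⟩
  · rw [← hsum]
    unfold psi tot
    rw [← Finset.sum_add_distrib, ← Finset.sum_add_distrib]
    refine Finset.sum_congr rfl fun k _ => ?_
    rw [add_smul, add_smul]

end Pool.Agent.TH201.Ph
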