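import Pool.Agent.TH201.Ph.Sys
import Pool.Agent.H929R3.Fib

set_option autoImplicit false

/-!
# The kernel lemma
-/

namespace Pool.Agent.TH201.Ph

open Ix
open Pool.Agent.H929R3 (co co_ext marg)

variable {G : Type} [AddCommGroup G]

/-- The row of an index. -/
def row (K : ℕ) (g : Fin (K + 1) × Fin 4 → G) (ix : Ix) : G × G :=
  (psi K g 0 (bd K 0 ix), psi K g 1 (bd K 1 ix))

theorem co_row (K : ℕ) (g : Fin (K + 1) × Fin 4 → G) (c : Fin 3) (ix : Ix) (h : Ok K ix) :
    co c (row K g ix) = psi K g c (bd K c ix) := by
  fin_cases c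
  · rfl
  · rfl
  · show - psi K g 0 (bd K 0 ix) - psi K g 1 (bd K 1 ix) = psi K g 2 (bd K 2 ix)
    have := psi_sum K g ix h
    rw [← sub_eq_zero]
    rw [← neg_eq_zero] at this
    rw [← this]
    abel

theorem row_inj {K : ℕ} (hK : 1 ≤ K) {g : Fin (K + 1) × Fin 4 → G} (hg : Good K g) {ix ix' : Ix}
    (h : Ok K ix) (h' : Ok K ix') (he : row K g ix = row K g ix') : ix = ix' := by
  have hb : ∀ c, bd K c ix = bd K c ix' := by
    intro c
    apply psi_inj hK hg (OkV_bd c ix h) (OkV_bd c ix' h')
    rw [← co_row K g c ix h, ← co_row K g c ix' h', he]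
  exact two_col hK (show (0 : Fin 3) ≠ 1 by decide) h h' (hb 0) (hb 1)

theorem prop_zero [Fintype G] [DecidableEq G] {K : ℕ} (hK : 1 ≤ K)
    {g : Fin (K + 1) × Fin 4 → G} (hg : Good K g) (n : G × G → ℤ)
    (hs : ∀ r, n r ≠ 0 → ∃ ix, Ok K ix ∧ r = row K g ix) (hm : ∀ c x, marg n c x = 0)
    (c : Fin 3) (ix0 : Ix) (h0 : Ok K ix0)
    (h : ∀ ix, Ok K ix → bd K c ix = bd K c ix0 → ix ≠ ix0 → n (row K g ix) = 0) :
    n (row K g ix0) = 0 := by
  classical
  have h1 := hm c (co c (row K g ix0))
  unfold marg at h1
  rw [Finset.sum_eq_single (row K g ix0)] at h1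
  · simpa using h1
  · intro r _ hr
    split_ifs with h2
    · by_contra hn
      obtain ⟨ix, hok, rfl⟩ := hs r hn
      apply hn
      apply h ix hok
      · apply psi_inj hK hg (OkV_bd c ix hok) (OkV_bd c ix0 h0)
        rw [← co_row K g c ix hok, ← co_row K g c ix0 h0, h2]
      · intro h3; exact hr (by rw [h3])
    · rfl
  · intro h2; exact absurd (Finset.mem_univ _) h2

/-- interior labels -/
def inner (c : Fin 3) (l : Fin 7) : Bool := (l != 0) && ((c == 2) || (l != 1))

theorem inner_fl : ∀ (c : Fin 3) (j : Fin 6) (s : Bool), inner c (lb c j s) = true →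
    fl c j s = false ∧ hub c (lb c j s) = false := by decide

theorem gad_snd (K : ℕ) (c : Fin 3) (e b : Bool) : inner c (bd K c (gad e b)).2 = false := by
  rw [bd_gad]
  by_cases hc : c = 2
  · subst hc; rfl
  · rw [if_neg hc]
    rcases c01 c hc with rfl | rfl <;> cases b <;> rfl

theorem d_link : ∀ (j : Fin 6) (s : Bool), lb 0 j s = 1 →
    (j = 0 ∧ s = false) ∨ (j = 1 ∧ s = false) ∨ (j = 5 ∧ s = true) := by decide

/-- The kernel lemma. -/
theorem ker_zero [Fintype G] [DecidableEq G] {K : ℕ} (hK : 1 ≤ K)
    {g : Fin (K + 1) × Fin 4 → G} (hg : Good K g) (n : G × G → ℤ)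
    (hs : ∀ r, n r ≠ 0 → ∃ ix, Ok K ix ∧ r = row K g ix) (hm : ∀ c x, marg n c x = 0)
    (h000 : n (row K g (gad false false)) = 0) : ∀ r, n r = 0 := by
  have PZ := prop_zero hK hg n hs hm
  -- steps inside a block
  have stp : ∀ (i : ℕ) (_ : 1 ≤ i ∧ i ≤ K) (c : Fin 3) (j0 : Fin 6) (s0 : Bool) (j1 : Fin 6)
      (s1 : Bool), inner c (lb c j0 s0) = true →
      (∀ j' s', lb c j' s' = lb c j0 s0 → (j' = j0 ∧ s' = s0) ∨ (j' = j1 ∧ s' = s1)) →
      n (row K g (blk i j1 s1)) = 0 → n (row K g (blk i j0 s0)) = 0 := by
    intro i hi c j0 s0 j1 s1 hin hd hz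
    apply PZ c (blk i j0 s0) hi
    intro ix hok hbd hne
    obtain ⟨f0, g0⟩ := inner_fl c j0 s0 hin
    cases ix with
    | blk i' j' s' =>
      have hlab := congrArg Prod.snd hbd
      have hlev := congrArg Prod.fst hbd
      rw [bd_blk_snd, bd_blk_snd] at hlab
      have hin' : inner c (lb c j' s') = true := by rw [hlab]; exact hin
      obtain ⟨f1, g1⟩ := inner_fl c j' s' hin'
      rw [bd_blk_fst K c i' j' s' g1, bd_blk_fst K c i j0 s0 g0, f1, f0] at hlev
      simp only [Bool.false_eq_true, if_false] at hlev
      subst hlev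
      rcases hd j' s' hlab with ⟨rfl, rfl⟩ | ⟨rfl, rfl⟩
      · exact absurd rfl hne
      · exact hz
    | gad e b =>
      exfalso
      have h1 := gad_snd K c e b
      rw [hbd, bd_blk_snd, hin] at h1
      exact absurd h1 (by decide)
  have inblk : ∀ i, 1 ≤ i ∧ i ≤ K → n (row K g (blk i 5 true)) = 0 →
      ∀ j s, n (row K g (blk i j s)) = 0 := by
    intro i hi h5
    have S := stp i hi
    have a5 := S 2 5 false 5 true (by decide) (by decide) h5
    have a3 := S 1 3 false 5 true (by decide) (by decide) h5
    have b1 := S 0 1 true 5 false (by decide) (by decide) a5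
    have b0 := S 1 0 true 5 false (by decide) (by decide) a5
    have b3 := S 2 3 true 3 false (by decide) (by decide) a3
    have b2 := S 0 2 true 3 false (by decide) (by decide) a3
    have a1 := S 2 1 false 1 true (by decide) (by decide) b1
    have a0 := S 2 0 false 0 true (by decide) (by decide) b0
    have a2 := S 2 2 false 2 true (by decide) (by decide) b2
    have a4 := S 0 4 false 3 true (by decide) (by decide) b3
    have b4 := S 2 4 true 4 false (by decide) (by decide) a4
    intro j s
    fin_cases j <;> cases s <;> assumption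
  -- the links
  have lnk : ∀ i, i < K → (∀ j s, 1 ≤ i → n (row K g (blk i j s)) = 0) →
      n (row K g (blk (i + 1) 5 true)) = 0 := by
    intro i hi hz
    apply PZ 0 (blk (i + 1) 5 true) ⟨by omega, by omega⟩
    intro ix hok hbd hne
    have e0 : bd K 0 (blk (i + 1) 5 true) = (i, 1) := rfl
    rw [e0] at hbd
    cases ix with
    | blk i' j' s' =>
      have hlab := congrArg Prod.snd hbd
      have hlev := congrArg Prod.fst hbd
      rw [bd_blk_snd] at hlab
      simp only at hlab hlev
      have hi' : 1 ≤ i' := hok.1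
      rcases d_link j' s' hlab with ⟨rfl, rfl⟩ | ⟨rfl, rfl⟩ | ⟨rfl, rfl⟩
      · have e1 : (bd K 0 (blk i' 0 false)).1 = i' := rfl
        rw [e1] at hlev
        subst hlev
        exact hz _ _ hi'
      · have e1 : (bd K 0 (blk i' 1 false)).1 = i' := rfl
        rw [e1] at hlev
        subst hlev
        exact hz _ _ hi'
      · exfalso
        have e1 : (bd K 0 (blk i' 5 true)).1 = i' - 1 := rfl
        rw [e1] at hlev
        have : i' = i + 1 := by omega
        subst this
        exact hne rfl
    | gad e b =>
      cases b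
      · have e1 : bd K 0 (gad e false) = (endp K e, 1) := rfl
        rw [e1] at hbd
        have h2 := congrArg Prod.fst hbd
        cases e
        · exact h000
        · exfalso
          have : K = i := h2
          omega
      · exfalso
        have e1 : bd K 0 (gad e true) = (0, 0) := rfl
        rw [e1] at hbd
        exact absurd (show (0 : Fin 7) = 1 from congrArg Prod.snd hbd) (by decide)
  have hblk : ∀ i, 1 ≤ i → i ≤ K → ∀ j s, n (row K g (blk i j s)) = 0 := by
    intro i hi
    induction i, hi using Nat.le_induction with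
    | base =>
      intro h1
      exact inblk 1 ⟨le_rfl, h1⟩ (lnk 0 (by omega) (fun _ _ h => absurd h (by omega)))
    | succ i hi ih =>
      intro h1
      exact inblk (i + 1) ⟨by omega, h1⟩ (lnk i (by omega) (fun j s _ => ih (by omega) j s))
  have hgb : n (row K g (gad false true)) = 0 := by
    apply PZ 2 (gad false true) trivial
    intro ix hok hbd hne
    have e0 : bd K 2 (gad false true) = (0, 0) := rfl
    rw [e0] at hbd
    cases ix with
    | blk i' j' s' => exact hblk i' hok.1 hok.2 j' s'
    | gad e b =>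
      have e1 : bd K 2 (gad e b) = (endp K e, 0) := rfl
      rw [e1] at hbd
      cases e
      · cases b
        · exact h000
        · exact absurd rfl hne
      · exfalso
        have : K = 0 := congrArg Prod.fst hbd
        omega
  have hgt : n (row K g (gad true false)) = 0 := by
    apply PZ 0 (gad true false) trivial
    intro ix hok hbd hne
    have e0 : bd K 0 (gad true false) = (K, 1) := rfl
    rw [e0] at hbd
    cases ix with
    | blk i' j' s' => exact hblk i' hok.1 hok.2 j' s'
    | gad e b =>
      cases b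
      · cases e
        · exact h000
        · exact absurd rfl hne
      · exfalso
        have e1 : bd K 0 (gad e true) = (0, 0) := rfl
        rw [e1] at hbd
        exact absurd (show (0 : Fin 7) = 1 from congrArg Prod.snd hbd) (by decide)
  have hgt2 : n (row K g (gad true true)) = 0 := by
    apply PZ 2 (gad true true) trivial
    intro ix hok hbd hne
    cases ix with
    | blk i' j' s' => exact hblk i' hok.1 hok.2 j' s'
    | gad e b =>
      cases e <;> cases b
      · exact h000
      · exact hgb
      · exact hgt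
      · exact absurd rfl hne
  intro r
  by_contra hr
  obtain ⟨ix, hok, rfl⟩ := hs r hr
  apply hr
  cases ix with
  | blk i j s => exact hblk i hok.1 hok.2 j s
  | gad e b => cases e <;> cases b <;> assumption

end Pool.Agent.TH201.Ph
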