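import Pool.Agent.TH201.Ph.Fib

set_option autoImplicit false

/-!
# Generators of exponential degree for the three-leaf claw over every large group
-/

namespace Pool.Agent.TH201.Ph

open MvPolynomial
open Pool.Agent.H929R3 (co co_ext marg E0 lin mono not_mem_span binomial_mem)

/-- The core statement for a general index set of the flows. -/
theorem core {G : Type} [AddCommGroup G] [Fintype G] {K : ℕ} (hK : 1 ≤ K)
    (hG : (5 * K + 2) ^ 2 * (6 * K + 2) < Fintype.card G) {σ : Type} (e : σ ≃ G × G) :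
    ∃ (T0 T1 : σ →₀ ℕ) (g0 : σ), (∀ g, T0 g = 0 ∨ T1 g = 0) ∧ T0 ≠ T1 ∧
      T0.degree + 5 = 7 * 2 ^ K ∧
      lin (fun s => E0 (e s)) T0 = lin (fun s => E0 (e s)) T1 ∧
      ∀ (k : ℕ) (M : σ →₀ ℕ),
        lin (fun s => E0 (e s)) M = lin (fun s => E0 (e s)) (T0 + Finsupp.single g0 k) →
          M = T0 + Finsupp.single g0 k ∨ M = T1 + Finsupp.single g0 k := by
  classical
  obtain ⟨g, hg⟩ := exists_good hG
  have hlin : ∀ M : σ →₀ ℕ, lin (fun s => E0 (e s)) M =
      lin E0 (Finsupp.equivMapDomain e M) := by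
    intro M
    rw [lin, lin, Finsupp.linearCombination_equivMapDomain]
    rfl
  have hback : ∀ T : (G × G) →₀ ℕ,
      Finsupp.equivMapDomain e (Finsupp.equivMapDomain e.symm T) = T := by
    intro T; ext x; simp
  have hdeg : ∀ T : (G × G) →₀ ℕ,
      (Finsupp.equivMapDomain e.symm T).degree = T.degree := by
    intro T
    rw [Finsupp.degree_apply, Finsupp.degree_apply]
    exact Finsupp.sum_equivMapDomain e.symm T (fun _ n => n)
  have hadd : ∀ (T : (G × G) →₀ ℕ) (k : ℕ),
      Finsupp.equivMapDomain e (Finsupp.equivMapDomain e.symm T +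
        Finsupp.single (e.symm (gz K g)) k) = T + Finsupp.single (gz K g) k := by
    intro T k
    ext x
    simp [Finsupp.single_apply, Equiv.symm_apply_eq, Equiv.apply_symm_apply]
  have hinj : ∀ M M' : σ →₀ ℕ, Finsupp.equivMapDomain e M = Finsupp.equivMapDomain e M' →
      M = M' := by
    intro M M' h
    ext x
    have := DFunLike.congr_fun h (e x)
    simpa using this
  refine ⟨Finsupp.equivMapDomain e.symm (TT K g false), Finsupp.equivMapDomain e.symm
    (TT K g true), e.symm (gz K g), ?_, ?_, ?_, ?_, ?_⟩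
  · intro x
    have := disj_TT hK hg (e x)
    simpa using this
  · intro h
    have h1 := congrArg (Finsupp.equivMapDomain e) h
    rw [hback, hback] at h1
    exact TT_ne hK hg h1
  · rw [hdeg, degree_TT]
  · rw [hlin, hlin, hback, hback, lin_TT]
  · intro k M hM
    rw [hlin, hlin, hadd] at hM
    rcases fibre hK hg k _ hM with h | h
    · left
      apply hinj
      rw [h, hadd]
    · right
      apply hinj
      rw [h, hadd]

/-- arithmetic for the group orders -/
theorem exists_K (n : ℕ) (hn : 931040 < n) :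
    ∃ K : ℕ, 1 ≤ K ∧ (5 * K + 2) ^ 2 * (6 * K + 2) < n ∧ n + 5 < 7 * 2 ^ K := by
  -- the largest `K` with the first bound
  have hex : ∃ K : ℕ, n ≤ (5 * (K + 1) + 2) ^ 2 * (6 * (K + 1) + 2) := by
    refine ⟨n, ?_⟩
    calc n ≤ 6 * (n + 1) + 2 := by omega
      _ = 1 * (6 * (n + 1) + 2) := by ring
      _ ≤ (5 * (n + 1) + 2) ^ 2 * (6 * (n + 1) + 2) :=
        Nat.mul_le_mul_right _ (Nat.one_le_pow _ _ (by omega))
  classical
  obtain ⟨K, hK1, hK2⟩ : ∃ K : ℕ, n ≤ (5 * (K + 1) + 2) ^ 2 * (6 * (K + 1) + 2) ∧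
      ∀ m < K, ¬ n ≤ (5 * (m + 1) + 2) ^ 2 * (6 * (m + 1) + 2) :=
    ⟨Nat.find hex, Nat.find_spec hex, fun m hm => Nat.find_min hex hm⟩
  have hmono : ∀ a b : ℕ, a ≤ b → (5 * a + 2) ^ 2 * (6 * a + 2) ≤ (5 * b + 2) ^ 2 * (6 * b + 2) :=
    fun a b h => Nat.mul_le_mul (Nat.pow_le_pow_left (by omega) 2) (by omega)
  have hK18 : 18 ≤ K := by
    by_contra h
    have h1 := hmono (K + 1) 18 (by omega)
    norm_num at h1
    omega
  refine ⟨K, by omega, ?_, ?_⟩
  · have := hK2 (K - 1) (by omega)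
    have h2 : K - 1 + 1 = K := by omega
    rw [h2] at this
    omega
  · have hexp : ∀ m : ℕ, 18 ≤ m → (5 * (m + 1) + 2) ^ 2 * (6 * (m + 1) + 2) + 5 < 7 * 2 ^ m := by
      intro m hm
      induction m, hm using Nat.le_induction with
      | base => norm_num
      | succ m hm ih =>
        have h1 : (5 * (m + 1 + 1) + 2) ^ 2 * (6 * (m + 1 + 1) + 2) + 5 ≤
            2 * ((5 * (m + 1) + 2) ^ 2 * (6 * (m + 1) + 2) + 5) := by
          nlinarith [mul_pos (show 0 < m by omega) (show 0 < m by omega)]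
        have h2 : 2 ^ (m + 1) = 2 * 2 ^ m := by ring
        rw [h2]
        calc _ ≤ 2 * ((5 * (m + 1) + 2) ^ 2 * (6 * (m + 1) + 2) + 5) := h1
          _ < 2 * (7 * 2 ^ m) := Nat.mul_lt_mul_of_pos_left ih (by norm_num)
          _ = 7 * (2 * 2 ^ m) := by ring
    exact lt_of_le_of_lt (by omega) (hexp K hK18)

end Pool.Agent.TH201.Ph
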