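import Pool.Agent.TH201.Ph.Gen

set_option autoImplicit false

/-!
# Properties of the triple system
-/

namespace Pool.Agent.TH201.Ph

open Ix

theorem d_two : ∀ (c1 c2 : Fin 3) (j : Fin 6) (s : Bool) (j' : Fin 6) (s' : Bool), c1 ≠ c2 →
    lb c1 j s = lb c1 j' s' → lb c2 j s = lb c2 j' s' →
    (j = j' ∧ s = s' ∧ ((hub c1 (lb c1 j s) = false) ∨ (hub c2 (lb c2 j s) = false))) ∨
    (hub c1 (lb c1 j s) = false ∧ hub c2 (lb c2 j s) = false ∧
      ((fl c1 j s = fl c1 j' s' ∧ fl c2 j s ≠ fl c2 j' s') ∨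
        (fl c1 j s ≠ fl c1 j' s' ∧ fl c2 j s = fl c2 j' s'))) := by
  decide

theorem d_gad : ∀ (j : Fin 6) (s : Bool), ¬ (lb 0 j s = 1 ∧ lb 1 j s = 0) ∧
    ¬ (lb 0 j s = 0 ∧ lb 1 j s = 1) := by
  decide

theorem d_two_ne : ∀ (j : Fin 6) (s : Bool), hub 2 (lb 2 j s) = false ∧ fl 2 j s = false := by
  decide

theorem bd_blk (K : ℕ) (c : Fin 3) (i : ℕ) (j : Fin 6) (s : Bool) : bd K c (blk i j s) =
    if hub c (lb c j s) then ((0, 0) : Vx) else (if fl c j s then i - 1 else i, lb c j s) := rfl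

theorem bd_gad (K : ℕ) (c : Fin 3) (e s : Bool) : bd K c (gad e s) =
    if c = 2 then ((endp K e, 0) : Vx) else if (c = 0 ↔ s = false) then (endp K e, 1)
      else (0, 0) := rfl

theorem c01 : ∀ c : Fin 3, c ≠ 2 → c = 0 ∨ c = 1 := by decide

theorem bd_blk_snd (K : ℕ) (c : Fin 3) (i : ℕ) (j : Fin 6) (s : Bool) :
    (bd K c (blk i j s)).2 = lb c j s := by
  rw [bd_blk]
  by_cases h : hub c (lb c j s) = true
  · rw [if_pos h]
    have : ∀ (c : Fin 3) (l : Fin 7), hub c l = true → l = 0 := by decide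
    exact (this _ _ h).symm
  · rw [if_neg h]

theorem bd_blk_fst (K : ℕ) (c : Fin 3) (i : ℕ) (j : Fin 6) (s : Bool)
    (h : hub c (lb c j s) = false) :
    (bd K c (blk i j s)).1 = if fl c j s then i - 1 else i := by
  rw [bd_blk, h]
  rfl

theorem d_col : ∀ c1 c2 : Fin 3, c1 ≠ c2 → c1 = 2 ∨ c2 = 2 ∨ (c1 = 0 ∧ c2 = 1) ∨
    (c1 = 1 ∧ c2 = 0) := by decide

/-- A row is determined by two of its vertices. -/
theorem two_col {K : ℕ} (hK : 1 ≤ K) {c1 c2 : Fin 3} (hc : c1 ≠ c2) {ix ix' : Ix} (h : Ok K ix)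
    (h' : Ok K ix') (h1 : bd K c1 ix = bd K c1 ix') (h2 : bd K c2 ix = bd K c2 ix') :
    ix = ix' := by
  have mix : ∀ i j s e b, Ok K (blk i j s) → bd K c1 (blk i j s) = bd K c1 (gad e b) →
      bd K c2 (blk i j s) = bd K c2 (gad e b) → False := by
    intro i j s e b _ h1 h2
    have e1 := congrArg Prod.snd h1
    have e2 := congrArg Prod.snd h2
    rw [bd_blk_snd] at e1 e2
    rcases d_col c1 c2 hc with rfl | rfl | ⟨rfl, rfl⟩ | ⟨rfl, rfl⟩
    · exact lb_two j s e1
    · exact lb_two j s e2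
    · cases b
      · exact (d_gad j s).1 ⟨e1, e2⟩
      · exact (d_gad j s).2 ⟨e1, e2⟩
    · cases b
      · exact (d_gad j s).1 ⟨e2, e1⟩
      · exact (d_gad j s).2 ⟨e2, e1⟩
  cases ix with
  | blk i j s =>
    cases ix' with
    | blk i' j' s' =>
      have hi : 1 ≤ i := h.1
      have hi' : 1 ≤ i' := h'.1
      have e1 := congrArg Prod.snd h1
      have e2 := congrArg Prod.snd h2
      rw [bd_blk_snd, bd_blk_snd] at e1 e2
      have f1 := congrArg Prod.fst h1
      have f2 := congrArg Prod.fst h2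
      rcases d_two c1 c2 j s j' s' hc e1 e2 with ⟨rfl, rfl, h3⟩ | ⟨g1, g2, h3⟩
      · rcases h3 with h3 | h3
        · rw [bd_blk_fst K c1 i j s h3, bd_blk_fst K c1 i' j s h3] at f1
          have : i = i' := by split_ifs at f1 <;> omega
          rw [this]
        · rw [bd_blk_fst K c2 i j s h3, bd_blk_fst K c2 i' j s h3] at f2
          have : i = i' := by split_ifs at f2 <;> omega
          rw [this]
      · exfalso
        rw [bd_blk_fst K c1 i j s g1, bd_blk_fst K c1 i' j' s' (by rw [← e1]; exact g1)] at f1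
        rw [bd_blk_fst K c2 i j s g2, bd_blk_fst K c2 i' j' s' (by rw [← e2]; exact g2)] at f2
        rcases h3 with ⟨h3, h4⟩ | ⟨h3, h4⟩
        · rw [h3] at f1
          have : i = i' := by split_ifs at f1 <;> omega
          subst this
          revert f2 h4
          cases fl c2 j s <;> cases fl c2 j' s' <;> simp <;> omega
        · rw [h4] at f2
          have : i = i' := by split_ifs at f2 <;> omega
          subst this
          revert f1 h3
          cases fl c1 j s <;> cases fl c1 j' s' <;> simp <;> omega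
    | gad e b => exact (mix _ _ _ _ _ h h1 h2).elim
  | gad e b =>
    cases ix' with
    | blk i' j' s' => exact (mix _ _ _ _ _ h' h1.symm h2.symm).elim
    | gad e' b' =>
      have hend : endp K e = endp K e' → e = e' := by
        intro h
        cases e <;> cases e' <;> simp [endp] at h ⊢ <;> omega
      rcases d_col c1 c2 hc with rfl | rfl | ⟨rfl, rfl⟩ | ⟨rfl, rfl⟩
      · have e0 : e = e' := hend (congrArg Prod.fst h1)
        subst e0
        rcases c01 c2 hc.symm with rfl | rfl <;> cases b <;> cases b' <;>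
          simp [bd_gad] at h2 ⊢
      · have e0 : e = e' := hend (congrArg Prod.fst h2)
        subst e0
        rcases c01 c1 hc with rfl | rfl <;> cases b <;> cases b' <;>
          simp [bd_gad] at h1 ⊢
      · cases b <;> cases b' <;> simp [bd_gad] at h1 h2 ⊢
        · exact hend h1
        · exact hend h2
      · cases b <;> cases b' <;> simp [bd_gad] at h1 h2 ⊢
        · exact hend h2
        · exact hend h1

theorem d_cover : ∀ (c : Fin 3) (l : Fin 7), c ≠ 2 → l ≠ 0 → l ≠ 1 → l ≠ 6 →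
    ∃ j s, lb c j s = l ∧ fl c j s = false := by
  decide

theorem d_cover2 : ∀ (l : Fin 7), l ≠ 0 → ∃ j s, lb 2 j s = l ∧ fl 2 j s = false := by
  decide

theorem d_cover1 : ∀ (c : Fin 3), c ≠ 2 → ∃ j s, lb c j s = 1 ∧ fl c j s = false := by
  decide

theorem bd_of {K : ℕ} {c : Fin 3} {i : ℕ} {l : Fin 7} {j : Fin 6} {s : Bool}
    (h1 : lb c j s = l) (h2 : fl c j s = false) (h3 : hub c l = false) :
    bd K c (blk i j s) = (i, l) := by
  rw [bd_blk, h1, h3, h2]
  rfl

theorem d_hub : ∀ (c : Fin 3) (l : Fin 7), l ≠ 0 → hub c l = false := by decide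

/-- Every vertex lies on a row. -/
theorem cover {K : ℕ} {c : Fin 3} {v : Vx} (h : OkV K c v) : ∃ ix, Ok K ix ∧ bd K c ix = v := by
  obtain ⟨i, l⟩ := v
  unfold OkV at h
  split_ifs at h with h2
  · subst h2
    rcases h with ⟨h3, h4⟩ | ⟨h3, h4, h5⟩
    · simp only at h3 h4
      subst h3
      rcases h4 with rfl | rfl
      · exact ⟨gad false false, trivial, rfl⟩
      · exact ⟨gad true false, trivial, rfl⟩
    · obtain ⟨j, s, h6, h7⟩ := d_cover2 l h3
      exact ⟨blk i j s, ⟨h4, h5⟩, bd_of h6 h7 (d_hub _ _ h3)⟩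
  · rcases h with ⟨h3, h4⟩ | ⟨h3, h4⟩ | ⟨h3, h4, h5, h6, h7⟩
    · simp only at h3 h4
      subst h3 h4
      rcases c01 c h2 with rfl | rfl
      · exact ⟨gad false true, trivial, rfl⟩
      · exact ⟨gad false false, trivial, rfl⟩
    · simp only at h3 h4
      subst h3
      by_cases hi : i = 0
      · subst hi
        rcases c01 c h2 with rfl | rfl
        · exact ⟨gad false false, trivial, rfl⟩
        · exact ⟨gad false true, trivial, rfl⟩
      · obtain ⟨j, s, h6, h7⟩ := d_cover1 c h2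
        exact ⟨blk i j s, ⟨by omega, h4⟩, bd_of h6 h7 (d_hub _ _ (by decide))⟩
    · obtain ⟨j, s, h8, h9⟩ := d_cover c l h2 h3 h4 h5
      exact ⟨blk i j s, ⟨h6, h7⟩, bd_of h8 h9 (d_hub _ _ h3)⟩

theorem d_ok : ∀ (c : Fin 3) (j : Fin 6) (s : Bool), (c = 2 → lb c j s ≠ 0 ∧ fl c j s = false) ∧
    (c ≠ 2 → lb c j s ≠ 6) ∧ (fl c j s = true → c ≠ 2 ∧ lb c j s = 1) := by
  decide

theorem OkV_bd {K : ℕ} (c : Fin 3) (ix : Ix) (h : Ok K ix) : OkV K c (bd K c ix) := by
  cases ix with
  | blk i j s =>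
    obtain ⟨h1, h2⟩ : 1 ≤ i ∧ i ≤ K := h
    obtain ⟨d1, d2, d3⟩ := d_ok c j s
    by_cases hc : c = 2
    · obtain ⟨d4, d5⟩ := d1 hc
      rw [bd_of rfl d5 (d_hub _ _ d4)]
      unfold OkV
      rw [if_pos hc]
      exact Or.inr ⟨d4, h1, h2⟩
    · by_cases h0 : lb c j s = 0
      · have : hub c (lb c j s) = true := by
          rw [h0]
          rcases c01 c hc with rfl | rfl <;> rfl
        rw [bd_blk, if_pos this]
        unfold OkV
        rw [if_neg hc]
        exact Or.inl ⟨rfl, rfl⟩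
      · by_cases hf : fl c j s = true
        · obtain ⟨_, d4⟩ := d3 hf
          unfold OkV
          rw [if_neg hc, bd_blk_snd, bd_blk_fst K c i j s (d_hub _ _ h0), if_pos hf]
          exact Or.inr (Or.inl ⟨d4, by omega⟩)
        · rw [bd_of rfl (by simpa using hf) (d_hub _ _ h0)]
          unfold OkV
          rw [if_neg hc]
          by_cases h11 : lb c j s = 1
          · exact Or.inr (Or.inl ⟨h11, h2⟩)
          · exact Or.inr (Or.inr ⟨h0, h11, d2 hc, h1, h2⟩)
  | gad e b =>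
    have hL : endp K e ≤ K := by cases e <;> simp [endp]
    have hL2 : endp K e = 0 ∨ endp K e = K := by cases e <;> simp [endp]
    rw [bd_gad]
    unfold OkV
    by_cases hc : c = 2
    · rw [if_pos hc, if_pos hc]
      exact Or.inl ⟨rfl, hL2⟩
    · rw [if_neg hc, if_neg hc]
      split_ifs
      · exact Or.inr (Or.inl ⟨rfl, hL⟩)
      · exact Or.inl ⟨rfl, rfl⟩

/-- coefficients at the own level of the block -/
theorem d_sum1 : ∀ (j : Fin 6) (s : Bool) (t : Fin 4),
    (if fl 0 j s then 0 else cur 0 (lb 0 j s) t) + (if fl 1 j s then 0 else cur 1 (lb 1 j s) t) +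
      (if fl 2 j s then 0 else cur 2 (lb 2 j s) t) = 0 := by
  decide

/-- coefficients at the level below -/
theorem d_sum2 : ∀ (j : Fin 6) (s : Bool) (t : Fin 4),
    (if fl 0 j s then cur 0 (lb 0 j s) t else if t = 0 then prv 0 (lb 0 j s) else 0) +
    (if fl 1 j s then cur 1 (lb 1 j s) t else if t = 0 then prv 1 (lb 1 j s) else 0) +
    (if fl 2 j s then cur 2 (lb 2 j s) t else if t = 0 then prv 2 (lb 2 j s) else 0) = 0 := by
  decide

theorem cf_blk (K : ℕ) (c : Fin 3) (i : ℕ) (hi : 1 ≤ i) (j : Fin 6) (s : Bool) (n : ℕ)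
    (t : Fin 4) : cf c (bd K c (blk i j s)) n t =
      (if n = i then (if fl c j s then 0 else cur c (lb c j s) t) else 0) +
      (if n + 1 = i then (if fl c j s then cur c (lb c j s) t else
        if t = 0 then prv c (lb c j s) else 0) else 0) := by
  unfold cf
  rw [bd_blk_snd]
  by_cases hh : hub c (lb c j s) = true
  · rw [cur_hub _ _ t hh, prv_hub _ _ hh]
    simp
  · have hh' : hub c (lb c j s) = false := by simpa using hh
    rw [bd_blk_fst K c i j s hh']
    by_cases hf : fl c j s = true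
    · obtain ⟨h2, h1⟩ := (d_ok c j s).2.2 hf
      rw [prv_low c (lb c j s) (Or.inr ⟨h2, h1⟩)]
      simp only [hf, if_true, ite_self, add_zero, zero_add]
      by_cases h : n + 1 = i
      · rw [if_pos (by omega), if_pos h]
      · rw [if_neg (by omega), if_neg h]
    · have hf' : fl c j s = false := by simpa using hf
      simp only [hf', Bool.false_eq_true, if_false]
      congr 1
      by_cases h : n + 1 = i
      · by_cases ht : t = 0
        · rw [if_pos ⟨h, ht⟩, if_pos h, if_pos ht]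
        · rw [if_neg (fun h' => ht h'.2), if_pos h, if_neg ht]
      · rw [if_neg (fun h' => h h'.1), if_neg h]

theorem cf_sum (K : ℕ) (ix : Ix) (h : Ok K ix) (n : ℕ) (t : Fin 4) :
    cf 0 (bd K 0 ix) n t + cf 1 (bd K 1 ix) n t + cf 2 (bd K 2 ix) n t = 0 := by
  cases ix with
  | blk i j s =>
    have hi : 1 ≤ i := h.1
    rw [cf_blk K 0 i hi, cf_blk K 1 i hi, cf_blk K 2 i hi]
    have h1 := d_sum1 j s t
    have h2 := d_sum2 j s t
    split_ifs at * <;> omega
  | gad e b =>
    have d1 : ∀ t : Fin 4, cur 0 1 t + cur 2 0 t = 0 ∧ cur 1 1 t + cur 2 0 t = 0 ∧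
        cur 0 0 t = 0 ∧ cur 1 0 t = 0 := by decide
    have d2 : prv 0 1 = 0 ∧ prv 1 1 = 0 ∧ prv 2 0 = 0 ∧ prv 0 0 = 0 ∧ prv 1 0 = 0 := by decide
    obtain ⟨a1, a2, a3, a4⟩ := d1 t
    obtain ⟨b1, b2, b3, b4, b5⟩ := d2
    cases b
    · have e0 : bd K 0 (gad e false) = (endp K e, 1) := rfl
      have e1 : bd K 1 (gad e false) = (0, 0) := rfl
      have e2 : bd K 2 (gad e false) = (endp K e, 0) := rfl
      rw [e0, e1, e2]
      unfold cf
      simp only [b1, b3, b5, a4, ite_self, add_zero]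
      split_ifs <;> omega
    · have e0 : bd K 0 (gad e true) = (0, 0) := rfl
      have e1 : bd K 1 (gad e true) = (endp K e, 1) := rfl
      have e2 : bd K 2 (gad e true) = (endp K e, 0) := rfl
      rw [e0, e1, e2]
      unfold cf
      simp only [b2, b3, b4, a3, ite_self, add_zero, zero_add]
      split_ifs <;> omega

theorem d_oth : ∀ c : Fin 3, ∃ c1 c2 : Fin 3, c1 ≠ c ∧ c2 ≠ c ∧ c1 ≠ c2 := by decide

variable {G : Type*} [AddCommGroup G]

theorem psi_sum (K : ℕ) (g : Fin (K + 1) × Fin 4 → G) (ix : Ix) (h : Ok K ix) :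
    psi K g 0 (bd K 0 ix) + psi K g 1 (bd K 1 ix) + psi K g 2 (bd K 2 ix) = 0 := by
  unfold psi
  rw [← Finset.sum_add_distrib, ← Finset.sum_add_distrib]
  refine Finset.sum_eq_zero fun k _ => ?_
  rw [← add_smul, ← add_smul, cf_sum K ix h, zero_smul]

theorem psi_inj {K : ℕ} (hK : 1 ≤ K) {g : Fin (K + 1) × Fin 4 → G} (hg : Good K g) {c : Fin 3}
    {v v' : Vx} (hv : OkV K c v) (hv' : OkV K c v') (h : psi K g c v = psi K g c v') :
    v = v' := by
  obtain ⟨ix, hok, rfl⟩ := cover hv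
  obtain ⟨ix', hok', hb⟩ := hg (Function.update (fun c' => bd K c' ix) c v') (by
    intro c'
    by_cases hc : c' = c
    · subst hc; rw [Function.update_self]; exact hv'
    · rw [Function.update_of_ne hc]; exact OkV_bd c' ix hok) (by
    have h1 := psi_sum K g ix hok
    have h2 : ∀ c', psi K g c' (Function.update (fun c' => bd K c' ix) c v' c') =
        psi K g c' (bd K c' ix) := by
      intro c'
      by_cases hc : c' = c
      · subst hc; rw [Function.update_self]; exact h.symm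
      · rw [Function.update_of_ne hc]
    rw [h2, h2, h2]
    exact h1)
  have hne : ∀ c', c' ≠ c → bd K c' ix' = bd K c' ix := by
    intro c' hc
    rw [hb c', Function.update_of_ne hc]
  obtain ⟨c1, c2, h1, h2, h3⟩ : ∃ c1 c2 : Fin 3, c1 ≠ c ∧ c2 ≠ c ∧ c1 ≠ c2 := d_oth c
  have : ix' = ix := two_col hK h3 hok' hok (hne c1 h1) (hne c2 h2)
  rw [← this, hb c, Function.update_self]

end Pool.Agent.TH201.Ph
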