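import Mathlib

set_option autoImplicit false

/-!
# A chain of triple systems with doubling weights: tables and finite checks

Vertices have a colour `c : Fin 3`, a level and a label in `Fin 7`. In the colours `0` and `1` the
label `0` is the hub (level `0`), the label `1` is the link of the level, the labels `2, …, 5` are
interior. In the colour `2` the label `0` is the vertex of the end gadgets and `1, …, 6` are
interior. The vertices are sent to formal combinations of four generators of each level.
-/

namespace Pool.Agent.TH201.Ph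

/-- Coefficients on the four generators of the own level, and on the first generator of the
level below. -/
def vec (c l : ℕ) : ℤ × ℤ × ℤ × ℤ × ℤ :=
  match c, l with
  | 0, 1 => (1, 0, 0, 0, 0)
  | 0, 2 => (0, 1, 0, 0, 0)
  | 0, 3 => (0, 0, 1, 0, 0)
  | 0, 4 => (1, 1, 0, 0, 0)
  | 0, 5 => (0, 0, 0, 1, 0)
  | 1, 1 => (1, 0, 0, 0, 0)
  | 1, 2 => (1, 1, -1, 1, 0)
  | 1, 3 => (1, 1, -1, 0, 1)
  | 1, 4 => (0, 0, 0, 1, 0)
  | 1, 5 => (0, 1, -1, 0, 1)
  | 2, 0 => (-1, 0, 0, 0, 0)
  | 2, 1 => (-1, -1, 1, 0, -1)
  | 2, 2 => (-1, 0, 0, -1, 0)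
  | 2, 3 => (0, -1, 0, 0, -1)
  | 2, 4 => (-1, -1, 0, -1, 0)
  | 2, 5 => (-1, -1, 0, 0, 0)
  | 2, 6 => (-1, -1, 1, -1, -1)
  | _, _ => (0, 0, 0, 0, 0)

/-- Coefficient on the generator `t` of the own level. -/
def cur (c : Fin 3) (l : Fin 7) (t : Fin 4) : ℤ :=
  let v := vec c.val l.val
  match t.val with
  | 0 => v.1
  | 1 => v.2.1
  | 2 => v.2.2.1
  | _ => v.2.2.2.1

/-- Coefficient on the first generator of the level below. -/
def prv (c : Fin 3) (l : Fin 7) : ℤ := (vec c.val l.val).2.2.2.2

/-- Label and flag (true: one level below) of the vertex of colour `0` or `1` of a row of a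
block. -/
def tabN (c j : ℕ) (s : Bool) : ℕ × Bool :=
  match c, j, s with
  | 0, 0, false => (1, false)
  | 0, 1, false => (1, false)
  | 0, 2, false => (2, false)
  | 0, 3, false => (3, false)
  | 0, 4, false => (4, false)
  | 0, _, false => (5, false)
  | 0, 0, true => (0, false)
  | 0, 1, true => (5, false)
  | 0, 2, true => (3, false)
  | 0, 3, true => (4, false)
  | 0, 4, true => (2, false)
  | 0, _, true => (1, true)
  | 1, 0, false => (5, false)
  | 1, 1, false => (4, false)
  | 1, 2, false => (1, true)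
  | 1, 3, false => (2, false)
  | 1, 4, false => (0, false)
  | 1, _, false => (3, false)
  | 1, 0, true => (3, false)
  | 1, 1, true => (1, false)
  | 1, 2, true => (5, false)
  | 1, 3, true => (4, false)
  | 1, 4, true => (1, false)
  | 1, _, true => (2, false)
  | _, j, _ => (j + 1, false)

/-- The label of the vertex of colour `c` of a row. -/
def lb (c : Fin 3) (j : Fin 6) (s : Bool) : Fin 7 := Fin.ofNat 7 (tabN c.val j.val s).1

/-- The flag of the vertex of colour `c` of a row. -/
def fl (c : Fin 3) (j : Fin 6) (s : Bool) : Bool := (tabN c.val j.val s).2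

/-- the hub labels -/
def hub (c : Fin 3) (l : Fin 7) : Bool := (c.val != 2) && (l.val == 0)

/-- the valid labels -/
def okL (c : Fin 3) (l : Fin 7) : Bool := (c.val == 2) || (l.val != 6)

/-- plus or minus one -/
def unit1 (x : ℤ) : Bool := (x == 1) || (x == -1)

/-- coefficient at the generator `t` of the top level -/
def T0 (l : Fin 3 → Fin 7) (s : Fin 3 → Fin 3) (t : Fin 4) : ℤ :=
  (if s 0 = 0 then cur 0 (l 0) t else 0) + (if s 1 = 0 then cur 1 (l 1) t else 0) +
    (if s 2 = 0 then cur 2 (l 2) t else 0)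

/-- coefficient at the generator `t` of the level below the top level -/
def T1 (l : Fin 3 → Fin 7) (s : Fin 3 → Fin 3) (t : Fin 4) : ℤ :=
  (if s 0 = 1 then cur 0 (l 0) t else if s 0 = 0 ∧ t = 0 then prv 0 (l 0) else 0) +
  (if s 1 = 1 then cur 1 (l 1) t else if s 1 = 0 ∧ t = 0 then prv 1 (l 1) else 0) +
  (if s 2 = 1 then cur 2 (l 2) t else if s 2 = 0 ∧ t = 0 then prv 2 (l 2) else 0)

end Pool.Agent.TH201.Ph
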